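import Pool.Agent.H94.LP4.M15

/-!
# Module UNumb (UA): numerical consequences
-/

namespace Pool.Agent.H18.Ua

open Finset Pool.Agent.H18.Ex Pool.Agent.H18.Cub Pool.Agent.H18.Pr

variable {n M t : ℕ}

private theorem unumb_pos (n : ℕ) (hM : 1 ≤ M) : 1 ≤ ell n M :=
  Nat.choose_pos (by omega)

private theorem unumb_nphi (n : ℕ) (hM : 1 ≤ M) (t : ℕ) :
    M * nphi n M t ≤ (M - 1) * t + M * ell n M ^ 2 := by
  unfold nphi
  have h : M * ((M - 1) * t / M) ≤ (M - 1) * t := Nat.mul_div_le _ _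
  calc M * ((M - 1) * t / M + ell n M ^ 2) = M * ((M - 1) * t / M) + M * ell n M ^ 2 := by ring
    _ ≤ _ := Nat.add_le_add_right h _

theorem yU_mul_le (n M t : ℕ) : 2 * (yU n M t * ell n M) ≤ t := by
  unfold yU
  calc 2 * (t / (2 * ell n M) * ell n M) = t / (2 * ell n M) * (2 * ell n M) := by ring
    _ ≤ t := Nat.div_mul_le_self _ _

/-- `yU n M t ≥ t / (4 ell n M)`. -/
theorem le_yU (hM : 1 ≤ M) (ht : TU n M ≤ t) : t ≤ 4 * ell n M * yU n M t := by
  have hE := unumb_pos n hM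
  unfold TU at ht
  unfold yU
  set E := ell n M
  have h1 : 2 * E ≤ t := by
    refine le_trans ?_ ht
    nlinarith [Nat.mul_le_mul hM hE, Nat.mul_le_mul hE hE,
      Nat.mul_le_mul (Nat.mul_le_mul hM (Nat.le_add_left 1 M)) (Nat.mul_le_mul hE (le_refl E))]
  have h2 : 1 ≤ t / (2 * E) := (Nat.one_le_div_iff (by omega)).2 h1
  have h3 : t < 2 * E * (t / (2 * E)) + 2 * E := Nat.lt_mul_div_succ t (by omega)
  have h4 : 2 * E ≤ 2 * E * (t / (2 * E)) := Nat.le_mul_of_pos_right _ h2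
  calc t ≤ 2 * E * (t / (2 * E)) + 2 * E * (t / (2 * E)) := by omega
    _ = 4 * E * (t / (2 * E)) := by ring

/-- The bound for the traces of the forced conditions. -/
theorem nphi_le (hM : 1 ≤ M) (ht : TU n M ≤ t) : nphi n M t ≤ t := by
  have h := unumb_nphi n hM t
  unfold TU at ht
  obtain ⟨m, rfl⟩ : ∃ m, M = m + 1 := ⟨M - 1, by omega⟩
  rw [Nat.add_sub_cancel] at h
  set E := ell n (m + 1)
  have h2 : (m + 1) * nphi n (m + 1) t ≤ (m + 1) * t := by
    have : (m + 1) * E ^ 2 ≤ t := by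
      refine le_trans ?_ ht
      nlinarith [Nat.zero_le (m * E ^ 2), Nat.zero_le (m * m * E ^ 2), Nat.zero_le (E ^ 2)]
    calc (m + 1) * nphi n (m + 1) t ≤ m * t + (m + 1) * E ^ 2 := h
      _ ≤ m * t + t := by omega
      _ = (m + 1) * t := by ring
  exact Nat.le_of_mul_le_mul_left h2 (by omega)

/-- Room for the forced conditions: `F ≥ t - t / (4 M)`. -/
theorem nphi_room (hM : 1 ≤ M) (ht : TU n M ≤ t) {F : ℕ} (hF : (4 * M - 1) * t ≤ 4 * M * F) :
    nphi n M t + g0 n M * ell n M ≤ F := by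
  have h := unumb_nphi n hM t
  unfold TU at ht
  unfold g0
  obtain ⟨m, rfl⟩ : ∃ m, M = m + 1 := ⟨M - 1, by omega⟩
  rw [Nat.add_sub_cancel] at h
  rw [show 4 * (m + 1) - 1 = 4 * m + 3 by omega] at hF
  set E := ell n (m + 1)
  have h2 : 4 * (m + 1) * (nphi n (m + 1) t + (m + 1) * E * E) ≤ 4 * (m + 1) * F := by
    refine le_trans ?_ hF
    nlinarith [Nat.zero_le (m * E ^ 2), Nat.zero_le (m * m * E ^ 2), Nat.zero_le (E ^ 2)]
  exact Nat.le_of_mul_le_mul_left h2 (by omega)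

/-- The margin of one hyperplane. -/
theorem nphi_margin (hM : 1 ≤ M) (ht : TU n M ≤ t) {F : ℕ} (hF : (4 * M - 1) * t ≤ 4 * M * F) :
    t + 2 * M * nphi n M t ≤ 2 * M * F := by
  have h := unumb_nphi n hM t
  unfold TU at ht
  obtain ⟨m, rfl⟩ : ∃ m, M = m + 1 := ⟨M - 1, by omega⟩
  rw [Nat.add_sub_cancel] at h
  rw [show 4 * (m + 1) - 1 = 4 * m + 3 by omega] at hF
  set E := ell n (m + 1)
  nlinarith [Nat.zero_le (m * E ^ 2), Nat.zero_le (m * m * E ^ 2), Nat.zero_le (E ^ 2)]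

theorem yU_room (hM : 1 ≤ M) (ht : TU n M ≤ t) {F : ℕ} (hF : (4 * M - 1) * t ≤ 4 * M * F) :
    yU n M t * ell n M ≤ F := by
  have h := yU_mul_le n M t
  obtain ⟨m, rfl⟩ : ∃ m, M = m + 1 := ⟨M - 1, by omega⟩
  rw [show 4 * (m + 1) - 1 = 4 * m + 3 by omega] at hF
  have h2 : 4 * (m + 1) * (yU n (m + 1) t * ell n (m + 1)) ≤ 4 * (m + 1) * F := by
    refine le_trans ?_ hF
    set Z := yU n (m + 1) t * ell n (m + 1)
    calc 4 * (m + 1) * Z = 2 * (m + 1) * (2 * Z) := by ring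
      _ ≤ 2 * (m + 1) * t := Nat.mul_le_mul_left _ h
      _ ≤ (4 * m + 3) * t := Nat.mul_le_mul_right _ (by omega)
  exact Nat.le_of_mul_le_mul_left h2 (by omega)

/-- The virtual dimension is large. -/
theorem leR_room (hM : 1 ≤ M) (ht : TU n M ≤ t) {F : ℕ} (hF : F ≤ t) :
    M * (qU n M * t) + ell (n + 1) M * (F + g0 n M) + F + M * t +
      M * (ell (n + 1) M * (yU n M t + g0 n M)) ≤ 4 * M * qU n M * t := by
  have hE := unumb_pos n hM
  have hL := unumb_pos (n + 1) hM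
  have hy : yU n M t ≤ t := Nat.div_le_self _ _
  have hg : g0 n M ≤ t := by
    unfold g0
    unfold TU at ht
    refine le_trans ?_ ht
    calc M * ell n M = M * ell n M * 1 := by ring
      _ ≤ M * ell n M * (8 * (M + 1) * ell n M) :=
          Nat.mul_le_mul_left _ (Nat.mul_pos (by omega) (by omega))
      _ = 8 * M * (M + 1) * ell n M ^ 2 := by ring
  unfold qU
  generalize g0 n M = g at *
  generalize yU n M t = y at *
  generalize ell n M = E at *
  generalize ell (n + 1) M = L at *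
  -- elementary bounds
  have a1 : L * (F + g) ≤ L * (t + t) := Nat.mul_le_mul_left _ (by omega)
  have a2 : M * (L * (y + g)) ≤ M * (L * (t + t)) :=
    Nat.mul_le_mul_left _ (Nat.mul_le_mul_left _ (by omega))
  have b1 : L * t ≤ M * (L * t) := Nat.le_mul_of_pos_left _ (by omega)
  have b2 : M * (L * t) ≤ M * (M * (L * t)) :=
    Nat.mul_le_mul_left _ (Nat.le_mul_of_pos_left _ (by omega))
  have b3 : M * (M * (L * t)) ≤ M * (M * (M * (L * t))) :=
    Nat.mul_le_mul_left _ (Nat.mul_le_mul_left _ (Nat.le_mul_of_pos_left _ (by omega)))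
  have c1 : t ≤ M * t := Nat.le_mul_of_pos_left _ (by omega)
  have c2 : M * t ≤ M * (M * t) := Nat.mul_le_mul_left _ c1
  have c3 : M * (M * t) ≤ M * (M * (E * t)) :=
    Nat.mul_le_mul_left _ (Nat.mul_le_mul_left _ (Nat.le_mul_of_pos_left _ (by omega)))
  calc M * ((2 * M ^ 2 * L + 4 * M * E) * t) + L * (F + g) + F + M * t + M * (L * (y + g))
      ≤ M * ((2 * M ^ 2 * L + 4 * M * E) * t) + L * (t + t) + t + M * t + M * (L * (t + t)) := by
        omega
    _ = M * ((2 * M ^ 2 * L + 4 * M * E) * t) + (2 * (L * t) + 2 * (M * (L * t))) +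
          (t + M * t) := by ring
    _ ≤ M * ((2 * M ^ 2 * L + 4 * M * E) * t) + 4 * (M * (M * (M * (L * t)))) +
          2 * (M * (M * (E * t))) := by omega
    _ ≤ M * ((2 * M ^ 2 * L + 4 * M * E) * t) + 6 * (M * (M * (M * (L * t)))) +
          12 * (M * (M * (E * t))) := by omega
    _ = 4 * M * (2 * M ^ 2 * L + 4 * M * E) * t := by ring

/-- Monotonicity of the bound. -/
theorem nphi_mono (M : ℕ) {f f' : ℕ} (h : f ≤ f') : nphi n M f ≤ nphi n M f' := by
  unfold nphi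
  exact Nat.add_le_add_right (Nat.div_le_div_right (Nat.mul_le_mul_left _ h)) _

/-- Either many hyperplanes are used, or many simple points are free. -/
theorem branch_cases (hM : 1 ≤ M) (ht : TU n M ≤ t) (j : ℕ) (hj : j ≤ qU n M) :
    M * t ≤ yU n M t * (qU n M - j) ∨ 2 * M * (ell (n + 1) M * (M * t)) ≤ j * t := by
  have h := le_yU hM ht
  unfold qU at hj ⊢
  rcases Nat.lt_or_ge j (2 * M ^ 2 * ell (n + 1) M) with h1 | h1
  · left
    calc M * t ≤ M * (4 * ell n M * yU n M t) := Nat.mul_le_mul_left _ h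
      _ = yU n M t * (4 * M * ell n M) := by ring
      _ ≤ yU n M t * (2 * M ^ 2 * ell (n + 1) M + 4 * M * ell n M - j) :=
          Nat.mul_le_mul_left _ (by omega)
  · right
    calc 2 * M * (ell (n + 1) M * (M * t)) = 2 * M ^ 2 * ell (n + 1) M * t := by ring
      _ ≤ j * t := Nat.mul_le_mul_right _ h1

end Pool.Agent.H18.Ua
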