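import Pool.Agent.H94.LP4.M29
import Pool.Agent.H94.LP4.M33

/-!
# Module USys (UA): the Horace system of a family
-/

namespace Pool.Agent.H18.Ua

open Finset Pool.Agent.H18.Ex Pool.Agent.H18.Cub Pool.Agent.H18.Pr

variable {n q : ℕ}

private theorem USys_sep (v : Fin q → ℂ) (hv : Function.Injective v) (l : Fin q) :
    (gU n v).Sep l := by
  intro l' h
  right
  intro h1
  exact h (hv h1)

private theorem USys_sum_dn (a : Fin q → ℕ) (l : Fin q) (hl : 1 ≤ a l) :
    ∑ i, dn l a i + 1 = ∑ i, a i := by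
  have h1 : ∑ i ∈ univ.erase l, dn l a i = ∑ i ∈ univ.erase l, a i :=
    sum_congr rfl fun i hi => Function.update_of_ne (ne_of_mem_erase hi) _ _
  have h2 : dn l a l = a l - 1 := Function.update_self _ _ _
  rw [← add_sum_erase univ _ (mem_univ l), ← add_sum_erase univ (fun i => a i) (mem_univ l), h1, h2]
  omega

private theorem USys_resid (A : Fam n) (v : Fin q → ℂ) (hb : ∀ l, v l ∉ A.bad) (a : Fin q → ℕ)
    (l : Fin q) (hl : 1 ≤ a l) :
    ResW (gU n v) l (A.W (∑ i, a i)) (A.W (∑ i, dn l a i)) := by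
  have h := A.resW v l (hb l) (∑ i, dn l a i)
  rwa [USys_sum_dn a l hl] at h

private theorem USys_map_layer {Λ : Type} (S : Multiset (Role Λ)) :
    (S.map fun r => (Kind.free r.layer : Kind Λ)) = (S.map Role.layer).map Kind.free := by
  rw [Multiset.map_map]
  rfl

/-- The Horace system of a family; the state `a` stands for the degree `∑ l, a l`.
(`count`: if `1 ≤ F l a` then `h (δ - 1) ≠ 0`, so `h δ ≠ 0`; `base`: `W 0` consists of
constants.) -/
noncomputable def sysU (A : Fam n) (v : Fin q → ℂ) (hv : Function.Injective v)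
    (hb : ∀ l, v l ∉ A.bad) : SysN (Fin q) n where
  K := fun a S => GMP (gU n v) (A.W (∑ l, a l)) S
  F := fun _ a => if A.h (∑ l, a l - 1) = 0 then 0 else A.h (∑ l, a l) - A.h (∑ l, a l - 1)
  R := fun a => if A.h (∑ l, a l) = 0 then 1 else (A.h (∑ l, a l) : ℤ)
  tr := fun l a S => GMP (gU n v) (trW (gU n v) l (A.W (∑ l, a l))) (S.map Kind.free)
  mono := by
    intro a S S' h hS
    exact GMP.mono h hS
  free_mono := by
    intro a T S hT h
    exact GMP.free_mono T hT S h
  tr_mono := by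
    intro l a S S' h hS
    exact GMP.mono (Multiset.map_le_map h) hS
  count := by
    intro a l hl hF
    have h1 := USys_sum_dn a l hl
    have h2 : ∑ i, dn l a i = ∑ i, a i - 1 := by omega
    rw [h2]
    by_cases h0 : A.h (∑ i, a i - 1) = 0
    · rw [if_pos h0] at hF
      omega
    · rw [if_neg h0, if_neg h0]
      have h3 : A.h (∑ i, a i - 1) ≤ A.h (∑ i, a i) := A.h_mono' (Nat.sub_le _ _)
      rw [if_neg (by omega), Nat.cast_sub h3]
      ring
  step := by
    intro a l hl μ hμ S hS htr h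
    refine GMP.step (gU n v) l (USys_sep v hv l) _ _ (USys_resid A v hb a l hl) μ hμ S hS ?_ h
    rw [USys_map_layer]
    exact htr
  bridge := by
    intro a l hl S m h1 h2
    exact GMP.bridge (gU n v) l (USys_sep v hv l) _ _ (USys_resid A v hb a l hl) S m h1 h2
  base := by
    have h0 : ∑ l : Fin q, (0 : Fin q → ℕ) l = 0 := by simp
    rw [h0]
    exact gmp_simple (gU n v) (A.W 0) 1 A.h_zero_le
  base_R := by
    have h0 : ∑ l : Fin q, (0 : Fin q → ℕ) l = 0 := by simp
    rw [h0]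
    have h1 := A.h_zero_le
    split_ifs with h
    · rfl
    · have : A.h 0 = 1 := by omega
      rw [this]
      rfl

/-- Simple points (`gmp_simple`). -/
theorem sysU_full (A : Fam n) (v : Fin q → ℂ) (hv : Function.Injective v)
    (hb : ∀ l, v l ∉ A.bad) (a : Fin q → ℕ) : FullN (sysU A v hv hb) a := by
  constructor
  · change (1 : ℤ) ≤ if A.h (∑ l, a l) = 0 then 1 else (A.h (∑ l, a l) : ℤ)
    split_ifs with h
    · exact le_refl _
    · omega
  · intro x hx
    change (if A.h (∑ l, a l) = 0 then 1 else (A.h (∑ l, a l) : ℤ)) ≤ x at hx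
    change GMP (gU n v) (A.W (∑ l, a l)) _
    apply gmp_simple
    change A.h (∑ l, a l) ≤ x
    split_ifs at hx with h <;> omega

theorem sysU_gd (A : Fam n) (v : Fin q → ℂ) (hv : Function.Injective v)
    (hb : ∀ l, v l ∉ A.bad) (M : ℕ) (a : Fin q → ℕ) (l : Fin q)
    (h0 : A.h (∑ l, a l - 1) ≠ 0) (h : TrEx A M (∑ l, a l)) : (sysU A v hv hb).Gd M l a := by
  intro S hS hF
  change (if A.h (∑ l, a l - 1) = 0 then 0 else A.h (∑ l, a l) - A.h (∑ l, a l - 1)) ≤ _ at hF
  rw [if_neg h0] at hF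
  change GMP (gU n v) (trW (gU n v) l (A.W (∑ l, a l))) (S.map Kind.free)
  have h1 := h (v l) (hb l) S hS (by omega)
  exact (Fk_iff (gU n v) _ S).1 h1

/-- The differences increase. -/
private theorem USys_diff_mono (A : Fam n) {δ d : ℕ} (hδ : δ ≤ d) :
    A.h δ - A.h (δ - 1) ≤ A.h d - A.h (d - 1) := by
  induction d, hδ using Nat.le_induction with
  | base => exact le_refl _
  | succ d _ ih =>
    refine ih.trans ?_
    rw [Nat.add_sub_cancel]
    rcases Nat.eq_zero_or_pos d with rfl | hd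
    · simp
    · have h1 := A.t_mono d hd
      omega

private theorem USys_up (A : Fam n) {δ d : ℕ} (hδ : δ ≤ d) (k : ℕ) :
    A.h δ ≤ A.h (δ - k) + k * (A.h d - A.h (d - 1)) := by
  induction k with
  | zero => simp
  | succ k ih =>
    have h1 := USys_diff_mono A (show δ - k ≤ d by omega)
    rw [Nat.sub_sub] at h1
    rw [add_mul, one_mul]
    omega

private theorem USys_low (A : Fam n) (M C d : ℕ) (hM : 1 ≤ M) (hC : C ≤ d)
    (hslow : ∀ i < C, (4 * M - 1) * (A.h d - A.h (d - 1)) ≤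
      4 * M * (A.h (d - i) - A.h (d - i - 1))) {δ : ℕ} (hδ : δ ≤ d) (k : ℕ)
    (hk : d - δ + k ≤ C) :
    2 * A.h (δ - k) + k * (A.h d - A.h (d - 1)) ≤ 2 * A.h δ := by
  induction k with
  | zero => simp
  | succ k ih =>
    have h1 := ih (by omega)
    have h2 := hslow (d - δ + k) (by omega)
    have h3 : d - (d - δ + k) = δ - k := by omega
    rw [h3, Nat.sub_sub] at h2
    have h4 : A.h d - A.h (d - 1) ≤ 2 * (A.h (δ - k) - A.h (δ - (k + 1))) := by
      have h5 : 2 * M * (A.h d - A.h (d - 1)) ≤ (4 * M - 1) * (A.h d - A.h (d - 1)) :=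
        Nat.mul_le_mul_right _ (by omega)
      have h6 := h5.trans h2
      have h7 : 4 * M * (A.h (δ - k) - A.h (δ - (k + 1))) =
          2 * M * (2 * (A.h (δ - k) - A.h (δ - (k + 1)))) := by ring
      rw [h7] at h6
      exact Nat.le_of_mul_le_mul_left h6 (by omega)
    have h8 : A.h (δ - (k + 1)) ≤ A.h (δ - k) := A.h_mono' (by omega)
    rw [add_mul, one_mul]
    omega

private theorem USys_q_pos (n M : ℕ) (hM : 1 ≤ M) : 1 ≤ qU n M := by
  unfold qU
  have h1 : 1 ≤ ell n M := by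
    unfold ell
    exact Nat.choose_pos (by omega)
  have h2 : 1 * 1 ≤ 4 * M * ell n M := Nat.mul_le_mul (by omega) h1
  omega

/-- The degree of a state `a` with `RegU M N a`. -/
private theorem USys_reg (M : ℕ) (N a : Fin q → ℕ) (h : RegU M N a) :
    ∑ l, a l ≤ ∑ l, N l ∧ ∑ l, N l ≤ ∑ l, a l + q * (2 * M + 1) := by
  constructor
  · exact sum_le_sum fun l _ => (h l).1
  · have h1 : ∑ l, N l ≤ ∑ l, (a l + (2 * M + 1)) := sum_le_sum fun l _ => (h l).2
    rw [sum_add_distrib, sum_const, card_univ, Fintype.card_fin, smul_eq_mul] at h1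
    exact h1

/-- The numerical properties: the degree of a state `a` with `RegU M N a`, `∑ l, N l = d`, is at
least `d - q (2 M + 1)`, and `A.h (d - q (2 M + 1))` is at least the sum of `8 M q` differences, each
at least `t / 2`. -/
theorem sysU_num (A : Fam n) (M : ℕ) (v : Fin (qU n M) → ℂ) (hv : Function.Injective v)
    (hb : ∀ l, v l ∉ A.bad) (hn : 1 ≤ n) (hM : 1 ≤ M) (d : ℕ) (hd : CU n M ≤ d)
    (hbig : TU n M ≤ A.h d - A.h (d - 1))
    (hslow : ∀ i < CU n M, (4 * M - 1) * (A.h d - A.h (d - 1)) ≤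
      4 * M * (A.h (d - i) - A.h (d - i - 1)))
    (htr : ∀ i < CU n M, TrEx A M (d - i)) (N : Fin (qU n M) → ℕ) (hN : ∑ l, N l = d)
    (hN' : ∀ l, 2 * M + 2 ≤ N l) : NumU (sysU A v hv hb) M (A.h d - A.h (d - 1)) N := by
  have hq := USys_q_pos n M hM
  have hMq : M ≤ M * qU n M := Nat.le_mul_of_pos_right M hq
  have hqM : qU n M ≤ M * qU n M := Nat.le_mul_of_pos_left (qU n M) hM
  have hCU : CU n M = 11 * (M * qU n M) := by unfold CU; ring
  have h21 : qU n M * (2 * M + 1) = 2 * (M * qU n M) + qU n M := by ring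
  have ht : 1 ≤ A.h d - A.h (d - 1) := by
    refine le_trans ?_ hbig
    unfold TU
    have h1 : 1 ≤ ell n M := by
      unfold ell
      exact Nat.choose_pos (by omega)
    have h2 : 1 ≤ ell n M ^ 2 := Nat.one_le_pow _ _ h1
    have h3 : 1 * 1 ≤ 8 * M * (M + 1) := Nat.mul_le_mul (by omega) (by omega)
    have h4 : (1 * 1) * 1 ≤ 8 * M * (M + 1) * ell n M ^ 2 := Nat.mul_le_mul h3 h2
    omega
  -- the degree of a regular state
  have hdeg : ∀ a, RegU M N a → ∑ l, a l ≤ d ∧ d ≤ ∑ l, a l + 2 * (M * qU n M) + qU n M := by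
    intro a ha
    have h1 := USys_reg M N a ha
    rw [hN, h21] at h1
    omega
  have hne : ∀ a, RegU M N a → A.h (∑ l, a l - 1) ≠ 0 := by
    intro a ha h0
    have h1 := hdeg a ha
    have h2 := USys_low A M (CU n M) d hM hd hslow (δ := ∑ l, a l - 1) (by omega) 1 (by omega)
    omega
  refine ⟨hn, hM, hbig, Fintype.card_fin _, hN', ?_, ?_, ?_, ?_, fun a _ => sysU_full A v hv hb a,
    ?_⟩
  · -- `Fle`
    intro a l ha
    change (if A.h (∑ l, a l - 1) = 0 then 0 else A.h (∑ l, a l) - A.h (∑ l, a l - 1)) ≤ _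
    rw [if_neg (hne a ha)]
    exact USys_diff_mono A (hdeg a ha).1
  · -- `leF`
    intro a l ha
    change _ ≤ 4 * M *
      (if A.h (∑ l, a l - 1) = 0 then 0 else A.h (∑ l, a l) - A.h (∑ l, a l - 1))
    rw [if_neg (hne a ha)]
    have h1 := hdeg a ha
    have h2 := hslow (d - ∑ l, a l) (by omega)
    have h3 : d - (d - ∑ l, a l) = ∑ l, a l := by omega
    rw [h3] at h2
    exact h2
  · -- `gd`
    intro a l ha
    refine sysU_gd A v hv hb M a l (hne a ha) ?_
    have h1 := hdeg a ha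
    have h2 := htr (d - ∑ l, a l) (by omega)
    have h3 : d - (d - ∑ l, a l) = ∑ l, a l := by omega
    rw [h3] at h2
    exact h2
  · -- `leR`
    intro a ha
    change _ ≤ if A.h (∑ l, a l) = 0 then 1 else (A.h (∑ l, a l) : ℤ)
    have h1 := hdeg a ha
    have h2 := USys_low A M (CU n M) d hM hd hslow (δ := ∑ l, a l) h1.1 (8 * (M * qU n M))
      (by omega)
    have h3 : 4 * M * qU n M * (A.h d - A.h (d - 1)) ≤ A.h (∑ l, a l) := by
      have h4 : 8 * (M * qU n M) * (A.h d - A.h (d - 1)) =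
          2 * (4 * M * qU n M * (A.h d - A.h (d - 1))) := by ring
      omega
    have h5 : A.h (∑ l, a l) ≠ 0 := by
      have h6 : 1 ≤ 4 * M * qU n M * (A.h d - A.h (d - 1)) := by
        have h7 : 1 * 1 ≤ 4 * M * qU n M := Nat.mul_le_mul (by omega) hq
        have h8 : (1 * 1) * 1 ≤ 4 * M * qU n M * (A.h d - A.h (d - 1)) := Nat.mul_le_mul h7 ht
        omega
      omega
    rw [if_neg h5]
    exact_mod_cast h3
  · -- `kill`
    intro a ha S x s G hG hK hx hs
    have h1 := hdeg a ha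
    refine kill_all A (gU n v) (∑ l, a l) M (M * (A.h d - A.h (d - 1))) hM (by omega) ?_ G hG
      S x s hK hx hs
    refine (USys_up A h1.1 (M - 1)).trans (Nat.add_le_add_left ?_ _)
    exact Nat.mul_le_mul_right _ (by omega)

end Pool.Agent.H18.Ua
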